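import Pool.Agent.Lib.MP_49fa77_co.H30.Iface

/-!
# CC: counting components
-/

set_option autoImplicit false

namespace FT58.AS.H9

open Real MeasureTheory Set Metric Filter Relation FT58 FT58.AS

lemma rtg_mono' {r p : ℂ → ℂ → Prop} (h : ∀ a b, r a b → p a b) {x y : ℂ}
    (hxy : ReflTransGen r x y) : ReflTransGen p x y := by
  induction hxy with
  | refl => exact ReflTransGen.refl
  | tail _ hab ih => exact ih.tail (h _ _ hab)

lemma rtg_symm {r : ℂ → ℂ → Prop} (h : ∀ a b, r a b → r b a) {x y : ℂ}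
    (hxy : ReflTransGen r x y) : ReflTransGen r y x := by
  induction hxy with
  | refl => exact ReflTransGen.refl
  | tail _ hab ih => exact (ReflTransGen.single (h _ _ hab)).trans ih

lemma nE_le_zero {S : Finset ℂ} {X : ℂ → ℂ → Prop} (h0 : nE S X = 0) {c q : ℂ} (hc : c ∈ S)
    (hq : q ∈ S) : ¬ X c q := by
  classical
  unfold nE at h0
  rw [Finset.card_eq_zero, Finset.filter_eq_empty_iff] at h0
  exact h0 (x := (c, q)) (Finset.mem_product.mpr ⟨hc, hq⟩)

lemma cc_aux (S : Finset ℂ) :
    ∀ (n : ℕ) (H Q : ℂ → ℂ → Prop), nE S Q ≤ n → (∀ c q, H c q → H q c) →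
      (∀ c q, Q c q → Q q c) →
    (∀ x ∈ S, ∀ y ∈ S, ReflTransGen (fun c q => c ∈ S ∧ q ∈ S ∧ (H c q ∨ Q c q)) x y) →
    ∀ J : Finset ℂ, J ⊆ S →
      (∀ a ∈ J, ∀ b ∈ J, a ≠ b →
        ¬ ReflTransGen (fun c q => c ∈ S ∧ q ∈ S ∧ H c q) a b) →
      2 * J.card ≤ nE S Q + 2 := by
  classical
  intro n
  induction n with
  | zero =>
    intro H Q hn hH hQ hcon J hJ hind
    have h0 : nE S Q = 0 := Nat.le_zero.mp hn
    have hcard : J.card ≤ 1 := by
      rw [Finset.card_le_one]
      intro a ha b hb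
      by_contra hne
      apply hind a ha b hb hne
      refine rtg_mono' ?_ (hcon a (hJ ha) b (hJ hb))
      rintro c q ⟨hc, hq, h | h⟩
      · exact ⟨hc, hq, h⟩
      · exact absurd h (nE_le_zero h0 hc hq)
    omega
  | succ n ih =>
    intro H Q hn hH hQ hcon J hJ hind
    by_cases hex : ∃ a ∈ S, ∃ b ∈ S, Q a b
    swap
    · have hcard : J.card ≤ 1 := by
        rw [Finset.card_le_one]
        intro a ha b hb
        by_contra hne
        apply hind a ha b hb hne
        refine rtg_mono' ?_ (hcon a (hJ ha) b (hJ hb))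
        rintro c q ⟨hc, hq, h | h⟩
        · exact ⟨hc, hq, h⟩
        · exact absurd ⟨c, hc, q, hq, h⟩ hex
      omega
    obtain ⟨a, ha, b, hb, hab⟩ := hex
    set Q' : ℂ → ℂ → Prop := fun x y => Q x y ∧ ¬ ((x = a ∧ y = b) ∨ (x = b ∧ y = a)) with hQ'
    set H' : ℂ → ℂ → Prop := fun x y => H x y ∨ (x = a ∧ y = b) ∨ (x = b ∧ y = a) with hH'
    set Hc : ℂ → ℂ → Prop := fun c q => c ∈ S ∧ q ∈ S ∧ H c q with hHc
    have hH's : ∀ c q, H' c q → H' q c := by
      rintro c q (h | h | h)
      · exact Or.inl (hH _ _ h)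
      · exact Or.inr (Or.inr ⟨h.2, h.1⟩)
      · exact Or.inr (Or.inl ⟨h.2, h.1⟩)
    have hQ's : ∀ c q, Q' c q → Q' q c := by
      rintro c q ⟨h, h'⟩
      refine ⟨hQ _ _ h, ?_⟩
      tauto
    have hcon' : ∀ x ∈ S, ∀ y ∈ S,
        ReflTransGen (fun c q => c ∈ S ∧ q ∈ S ∧ (H' c q ∨ Q' c q)) x y := by
      intro x hx y hy
      refine rtg_mono' ?_ (hcon x hx y hy)
      rintro c q ⟨hc, hq, h | h⟩
      · exact ⟨hc, hq, Or.inl (Or.inl h)⟩
      · by_cases h' : (c = a ∧ q = b) ∨ (c = b ∧ q = a)
        · exact ⟨hc, hq, Or.inl (Or.inr h')⟩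
        · exact ⟨hc, hq, Or.inr ⟨h, h'⟩⟩
    have hsymm : ∀ {x y : ℂ}, ReflTransGen Hc x y → ReflTransGen Hc y x := fun {x y} h =>
      rtg_symm (fun x y h => ⟨h.2.1, h.1, hH _ _ h.2.2⟩) h
    have hdec : ∀ x y, ReflTransGen (fun c q => c ∈ S ∧ q ∈ S ∧ H' c q) x y →
        ReflTransGen Hc x y ∨ (ReflTransGen Hc x a ∧ ReflTransGen Hc b y) ∨
          (ReflTransGen Hc x b ∧ ReflTransGen Hc a y) := by
      intro x y h
      induction h with
      | refl => exact Or.inl ReflTransGen.refl
      | tail _ hst ihh =>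
        rename_i u v _
        obtain ⟨hu, hv, h1 | ⟨rfl, rfl⟩ | ⟨rfl, rfl⟩⟩ := hst
        · rcases ihh with k | ⟨k1, k2⟩ | ⟨k1, k2⟩
          · exact Or.inl (k.tail ⟨hu, hv, h1⟩)
          · exact Or.inr (Or.inl ⟨k1, k2.tail ⟨hu, hv, h1⟩⟩)
          · exact Or.inr (Or.inr ⟨k1, k2.tail ⟨hu, hv, h1⟩⟩)
        · -- step a → b
          rcases ihh with k | ⟨k1, k2⟩ | ⟨k1, k2⟩
          · exact Or.inr (Or.inl ⟨k, ReflTransGen.refl⟩)
          · exact Or.inr (Or.inl ⟨k1, ReflTransGen.refl⟩)
          · exact Or.inl k1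
        · -- step b → a
          rcases ihh with k | ⟨k1, k2⟩ | ⟨k1, k2⟩
          · exact Or.inr (Or.inr ⟨k, ReflTransGen.refl⟩)
          · exact Or.inl k1
          · exact Or.inr (Or.inr ⟨k1, ReflTransGen.refl⟩)
    by_cases hne : a = b
    · -- a loop
      have e1 := nE_insert (P := S) (X := Q) (X' := Q') (a := a) (b := b) (fun x y => by
        simp only [hQ']
        constructor
        · intro h
          by_cases h' : x = a ∧ y = b
          · exact Or.inr h'
          · refine Or.inl ⟨h, ?_⟩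
            rintro (h'' | h'')
            · exact h' h''
            · exact h' ⟨h''.1.trans hne.symm, h''.2.trans hne⟩
        · rintro (h | ⟨rfl, rfl⟩)
          · exact h.1
          · exact hab) (by simp only [hQ']; tauto) ha hb
      have := ih H' Q' (by omega) hH's hQ's hcon' J hJ (by
        intro x hx y hy hxy hp
        apply hind x hx y hy hxy
        rcases hdec x y hp with k | ⟨k1, k2⟩ | ⟨k1, k2⟩
        · exact k
        · rw [← hne] at k2; exact k1.trans k2
        · rw [← hne] at k1; exact k1.trans k2)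
      omega
    · have e1 := nE_insert (P := S) (X := fun x y => Q' x y ∨ (x = a ∧ y = b)) (X' := Q')
        (a := a) (b := b) (fun x y => Iff.rfl) (by simp only [hQ']; tauto) ha hb
      have e2 := nE_insert (P := S) (X := Q) (X' := fun x y => Q' x y ∨ (x = a ∧ y = b))
        (a := b) (b := a) (fun x y => by
        simp only [hQ']
        constructor
        · intro h
          by_cases h' : x = a ∧ y = b
          · exact Or.inl (Or.inr h')
          · by_cases h'' : x = b ∧ y = a
            · exact Or.inr h''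
            · refine Or.inl (Or.inl ⟨h, ?_⟩)
              rintro (h3 | h3)
              · exact h' h3
              · exact h'' h3
        · rintro ((h | ⟨rfl, rfl⟩) | ⟨rfl, rfl⟩)
          · exact h.1
          · exact hab
          · exact hQ _ _ hab) (by
          simp only [hQ']
          rintro (⟨_, h⟩ | ⟨h, _⟩)
          · exact h (Or.inr ⟨trivial, trivial⟩)
          · exact hne h.symm) hb ha
      set J' := J.filter (fun x => ¬ ReflTransGen Hc x a) with hJ'
      have hJc : J.card ≤ J'.card + 1 := by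
        have h1 : (J.filter (fun x => ReflTransGen Hc x a)).card + J'.card = J.card :=
          Finset.card_filter_add_card_filter_not (s := J) (fun x => ReflTransGen Hc x a)
        have h2 : (J.filter (fun x => ReflTransGen Hc x a)).card ≤ 1 := by
          rw [Finset.card_le_one]
          intro x hx y hy
          rw [Finset.mem_filter] at hx hy
          by_contra hxy
          exact hind x hx.1 y hy.1 hxy (hx.2.trans (hsymm hy.2))
        omega
      have := ih H' Q' (by omega) hH's hQ's hcon' J'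
        ((Finset.filter_subset _ _).trans hJ) (by
        intro x hx y hy hxy hp
        rw [hJ', Finset.mem_filter] at hx hy
        rcases hdec x y hp with k | ⟨k1, k2⟩ | ⟨k1, k2⟩
        · exact hind x hx.1 y hy.1 hxy k
        · exact hx.2 k1
        · exact hy.2 (hsymm k2))
      omega

theorem cc_st : CcS := by
  intro S H Q hH hQ hcon J hJ hind
  exact cc_aux S _ H Q le_rfl hH hQ hcon J hJ hind

end FT58.AS.H9
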