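import Pool.Agent.Lib.MP_49fa77_co.H30.Iface

/-!
# PE: peeling
-/

set_option autoImplicit false

namespace FT58.AS.H9

open Real MeasureTheory Set Metric Filter Relation FT58 FT58.AS

lemma rtg_mono {r p : ℂ → ℂ → Prop} (h : ∀ a b, r a b → p a b) {x y : ℂ}
    (hxy : ReflTransGen r x y) : ReflTransGen p x y := by
  induction hxy with
  | refl => exact ReflTransGen.refl
  | tail _ hab ih => exact ih.tail (h _ _ hab)

lemma bw_eq {S : Finset ℂ} {N : ℂ → ℂ → ℂ → Prop} (hN : Fam S N) (w : ℂ → ℂ → ℂ → ℝ)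
    {c q r : ℂ} (h : N c q r) : bw S N w c q = w c q r := by
  classical
  unfold bw
  rw [Finset.sum_eq_single r]
  · rw [if_pos h]
  · intro r' _ hne
    rw [if_neg]
    intro h'
    exact hne (Tr_unique (hN.tr _ _ _ h') (hN.tr _ _ _ h))
  · intro hn
    exact absurd (hN.tr _ _ _ h).2.2.1 hn

lemma bw_zero {S : Finset ℂ} {N : ℂ → ℂ → ℂ → Prop} (w : ℂ → ℂ → ℂ → ℝ)
    {c q : ℂ} (h : ¬ Lf N c q) : bw S N w c q = 0 := by
  classical
  unfold bw
  apply Finset.sum_eq_zero
  intro r _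
  rw [if_neg]
  intro h'
  exact h ⟨r, h'⟩

lemma nE_zero {S : Finset ℂ} {X : ℂ → ℂ → Prop} (h : ∀ c q, ¬ X c q) : nE S X = 0 := by
  classical
  unfold nE
  rw [Finset.card_eq_zero, Finset.filter_eq_empty_iff]
  intro x _
  exact h _ _

lemma pe_aux (S : Finset ℂ) (R : ℂ → ℂ → Prop) (hR : ∀ c q, R c q → R q c) :
    ∀ (n : ℕ) (N : ℂ → ℂ → ℂ → Prop), nE S (Lf N) ≤ n → Fam S N →
    (∀ Y : ℂ → ℂ → ℂ → Prop, Fam S Y → (∀ c q r, Y c q r → N c q r) → (∃ c q r, Y c q r) →
      ∃ c q r, Y c q r ∧ ¬ Lf Y q c ∧ R c q) →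
    ∃ X : ℂ → ℂ → Prop, (∀ c q, X c q → X q c) ∧
      (∀ c q, X c q → R c q ∧ (Lf N c q ∨ Lf N q c)) ∧
      3 * nE S X = 2 * nE S (Lf N) ∧
      (∀ G : ℂ → ℂ → Prop, (∀ c q, G c q → G q c) → (∀ c q, Lf N c q → G c q) →
        ∀ x y, ReflTransGen G x y → ReflTransGen (fun c q => G c q ∧ ¬ X c q) x y) ∧
      ∀ φ : ℂ → ℂ → ℝ, (∀ c q, φ q c = -φ c q) → ∃ w : ℂ → ℂ → ℂ → ℝ,
        (∀ c q r, w q r c = w c q r) ∧ ∀ c q, X c q → φ c q = bw S N w c q - bw S N w q c := by
  intro n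
  induction n with
  | zero =>
    intro N hn hN _
    have hno : ∀ c q r, ¬ N c q r := by
      intro c q r h
      classical
      have h0 : nE S (Lf N) = 0 := Nat.le_zero.mp hn
      unfold nE at h0
      rw [Finset.card_eq_zero, Finset.filter_eq_empty_iff] at h0
      have hT := hN.tr _ _ _ h
      exact h0 (x := (c, q)) (Finset.mem_product.mpr ⟨hT.1, hT.2.1⟩) ⟨r, h⟩
    have hno' : ∀ c q, ¬ Lf N c q := by
      rintro c q ⟨r, h⟩
      exact hno _ _ _ h
    refine ⟨fun _ _ => False, fun _ _ h => h, fun _ _ h => h.elim, ?_, ?_, ?_⟩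
    · rw [nE_zero (fun _ _ h => h), nE_zero hno']
    · intro G _ _ x y h
      exact rtg_mono (fun a b hab => ⟨hab, fun h => h⟩) h
    · intro φ _
      exact ⟨fun _ _ _ => 0, fun _ _ _ => rfl, fun _ _ h => h.elim⟩
  | succ n ih =>
    intro N hn hN hY
    by_cases hex : ∃ c q r, N c q r
    swap
    · have hno' : ∀ c q, ¬ Lf N c q := by
        rintro c q ⟨r, h⟩
        exact hex ⟨c, q, r, h⟩
      refine ⟨fun _ _ => False, fun _ _ h => h, fun _ _ h => h.elim, ?_, ?_, ?_⟩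
      · rw [nE_zero (fun _ _ h => h), nE_zero hno']
      · intro G _ _ x y h
        exact rtg_mono (fun a b hab => ⟨hab, fun h => h⟩) h
      · intro φ _
        exact ⟨fun _ _ _ => 0, fun _ _ _ => rfl, fun _ _ h => h.elim⟩
    obtain ⟨c0, q0, r0, h0, hnL, hR0⟩ := hY N hN (fun _ _ _ h => h) hex
    have hT0 := hN.tr _ _ _ h0
    obtain ⟨n1, n2, n3⟩ := Tr_ne hT0
    obtain ⟨N', hN', hsub, hLf, hsum⟩ := remove_tri hN h0
    have hcount : nE S (Lf N) = nE S (Lf N') + 3 := by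
      have := hsum (fun _ _ => 1)
      rw [sE_one, sE_one] at this
      have h2 : (nE S (Lf N) : ℝ) = ((nE S (Lf N') + 3 : ℕ) : ℝ) := by
        push_cast; linarith
      exact_mod_cast h2
    have hNN' : ∀ x y z, ¬ ((x = c0 ∧ y = q0) ∨ (x = q0 ∧ y = r0) ∨ (x = r0 ∧ y = c0)) →
        (N x y z ↔ N' x y z) := by
      intro x y z hno
      constructor
      · intro h
        obtain ⟨z', hz'⟩ := (hLf x y).mpr ⟨⟨z, h⟩, hno⟩
        have : z' = z := Tr_unique (hN.tr _ _ _ (hsub _ _ _ hz')) (hN.tr _ _ _ h)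
        rwa [this] at hz'
      · intro h; exact hsub _ _ _ h
    obtain ⟨X', hXs, hXR, hXn, hXc, hXw⟩ := ih N' (by omega) hN'
      (fun Y hY1 hY2 hY3 => hY Y hY1 (fun c q r h => hsub _ _ _ (hY2 c q r h)) hY3)
    have hL1 : ¬ Lf N' c0 q0 := by
      rw [hLf]; tauto
    have hL2 : ¬ Lf N' q0 c0 := by
      rw [hLf]; tauto
    have hX1 : ¬ X' c0 q0 := by
      intro h
      rcases (hXR _ _ h).2 with h' | h'
      · exact hL1 h'
      · exact hL2 h'
    have hX2 : ¬ X' q0 c0 := fun h => hX1 (hXs _ _ h)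
    have hLN : ∀ x y, Lf N' x y → Lf N x y := by
      rintro x y ⟨z, hz⟩
      exact ⟨z, hsub _ _ _ hz⟩
    refine ⟨fun x y => (X' x y ∨ (x = c0 ∧ y = q0)) ∨ (x = q0 ∧ y = c0), ?_, ?_, ?_, ?_, ?_⟩
    · rintro x y ((h | ⟨rfl, rfl⟩) | ⟨rfl, rfl⟩)
      · exact Or.inl (Or.inl (hXs _ _ h))
      · exact Or.inr ⟨rfl, rfl⟩
      · exact Or.inl (Or.inr ⟨rfl, rfl⟩)
    · rintro x y ((h | ⟨rfl, rfl⟩) | ⟨rfl, rfl⟩)
      · obtain ⟨h1, h2⟩ := hXR _ _ h
        exact ⟨h1, h2.imp (hLN _ _) (hLN _ _)⟩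
      · exact ⟨hR0, Or.inl ⟨_, h0⟩⟩
      · exact ⟨hR _ _ hR0, Or.inr ⟨_, h0⟩⟩
    · have e1 := nE_insert (P := S) (X := fun x y => X' x y ∨ (x = c0 ∧ y = q0)) (X' := X')
        (a := c0) (b := q0) (fun x y => Iff.rfl) hX1 hT0.1 hT0.2.1
      have e2 := nE_insert (P := S)
        (X := fun x y => (X' x y ∨ (x = c0 ∧ y = q0)) ∨ (x = q0 ∧ y = c0))
        (X' := fun x y => X' x y ∨ (x = c0 ∧ y = q0))
        (a := q0) (b := c0) (fun x y => Iff.rfl) (by
          rintro (h | ⟨h, _⟩)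
          · exact hX2 h
          · exact n1 h.symm) hT0.2.1 hT0.1
      rw [e2, e1, hcount]
      omega
    · intro G hGs hGN x y hxy
      set G' : ℂ → ℂ → Prop := fun c q => G c q ∧ ¬ ((c = c0 ∧ q = q0) ∨ (c = q0 ∧ q = c0))
        with hG'
      have h1 : G c0 q0 := hGN _ _ ⟨_, h0⟩
      have h2 : G q0 r0 := hGN _ _ ⟨_, hN.cyc _ _ _ h0⟩
      have h3 : G r0 c0 := hGN _ _ ⟨_, hN.cyc _ _ _ (hN.cyc _ _ _ h0)⟩
      have g2 : G' q0 r0 := ⟨h2, by
        rintro (⟨h, _⟩ | ⟨_, h⟩)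
        · exact n1 h.symm
        · exact n3 h⟩
      have g2' : G' r0 q0 := ⟨hGs _ _ h2, by
        rintro (⟨h, _⟩ | ⟨h, _⟩)
        · exact n3 h
        · exact n2 h.symm⟩
      have g3 : G' r0 c0 := ⟨h3, by
        rintro (⟨h, _⟩ | ⟨h, _⟩)
        · exact n3 h
        · exact n2 h.symm⟩
      have g3' : G' c0 r0 := ⟨hGs _ _ h3, by
        rintro (⟨_, h⟩ | ⟨h, _⟩)
        · exact n2 h.symm
        · exact n1 h⟩
      have hstep : ReflTransGen G' x y := by
        induction hxy with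
        | refl => exact ReflTransGen.refl
        | tail _ hab ihh =>
          rename_i a b _
          by_cases hc : (a = c0 ∧ b = q0) ∨ (a = q0 ∧ b = c0)
          · rcases hc with ⟨rfl, rfl⟩ | ⟨rfl, rfl⟩
            · exact (ihh.tail g3').tail g2'
            · exact (ihh.tail g2).tail g3
          · exact ihh.tail ⟨hab, hc⟩
      have hG's : ∀ c q, G' c q → G' q c := by
        rintro c q ⟨h, h'⟩
        refine ⟨hGs _ _ h, ?_⟩
        tauto
      have hG'N : ∀ c q, Lf N' c q → G' c q := by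
        intro c q h
        refine ⟨hGN _ _ (hLN _ _ h), ?_⟩
        rintro (⟨rfl, rfl⟩ | ⟨rfl, rfl⟩)
        · exact hL1 h
        · exact hL2 h
      refine rtg_mono ?_ (hXc G' hG's hG'N x y hstep)
      rintro a b ⟨⟨hab, hn1⟩, hn2⟩
      refine ⟨hab, ?_⟩
      tauto
    · intro φ hφ
      classical
      set rot : ℂ → ℂ → Prop := fun x y => (x = c0 ∧ y = q0) ∨ (x = q0 ∧ y = r0) ∨
        (x = r0 ∧ y = c0) with hrot
      set w0 : ℝ := φ c0 q0 with hw0
      set ι : ℂ → ℂ → ℝ := fun x y => if rot x y then w0 else 0 with hι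
      obtain ⟨w', hw'c, hw'⟩ := hXw (fun x y => φ x y - (ι x y - ι y x)) (by
        intro c q
        rw [hφ c q]; ring)
      set rt : ℂ → ℂ → ℂ → Prop := fun x y z => (x = c0 ∧ y = q0 ∧ z = r0) ∨
        (x = q0 ∧ y = r0 ∧ z = c0) ∨ (x = r0 ∧ y = c0 ∧ z = q0) with hrt
      have hrtc : ∀ x y z, rt x y z → rt y z x := by
        intro x y z h
        simp only [hrt] at h ⊢
        tauto
      set w : ℂ → ℂ → ℂ → ℝ := fun x y z => if rt x y z then w0 else w' x y z with hw
      have hwc : ∀ c q r, w q r c = w c q r := by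
        intro c q r
        simp only [hw]
        by_cases h : rt c q r
        · rw [if_pos h, if_pos (hrtc _ _ _ h)]
        · rw [if_neg h, if_neg (fun h' => h (hrtc _ _ _ (hrtc _ _ _ h'))), hw'c]
      have hkey : ∀ x y, bw S N w x y = bw S N' w' x y + ι x y := by
        intro x y
        by_cases hr : rot x y
        · have hno : ¬ Lf N' x y := by
            rw [hLf]
            rintro ⟨_, h'⟩
            exact h' hr
          rw [bw_zero w' hno, zero_add]
          simp only [hι, if_pos hr]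
          have h1 := h0
          have h2 := hN.cyc _ _ _ h1
          have h3 := hN.cyc _ _ _ h2
          rcases hr with ⟨rfl, rfl⟩ | ⟨rfl, rfl⟩ | ⟨rfl, rfl⟩
          · rw [bw_eq hN w h1]
            simp only [hw]
            rw [if_pos]
            exact Or.inl ⟨rfl, rfl, rfl⟩
          · rw [bw_eq hN w h2]
            simp only [hw]
            rw [if_pos]
            exact Or.inr (Or.inl ⟨rfl, rfl, rfl⟩)
          · rw [bw_eq hN w h3]
            simp only [hw]
            rw [if_pos]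
            exact Or.inr (Or.inr ⟨rfl, rfl, rfl⟩)
        · simp only [hι, if_neg hr, add_zero]
          unfold bw
          refine Finset.sum_congr rfl fun z _ => ?_
          have hne : ¬ rt x y z := by
            intro h
            apply hr
            simp only [hrt] at h
            simp only [hrot]
            tauto
          have e1 : w x y z = w' x y z := by
            simp only [hw]
            rw [if_neg hne]
          by_cases hz : N x y z
          · rw [if_pos hz, if_pos ((hNN' x y z hr).mp hz), e1]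
          · rw [if_neg hz, if_neg (fun h => hz ((hNN' x y z hr).mpr h))]
      have hmain : φ c0 q0 = bw S N w c0 q0 - bw S N w q0 c0 := by
        rw [hkey, hkey, bw_zero w' hL1, bw_zero w' hL2]
        have e1 : rot c0 q0 := Or.inl ⟨rfl, rfl⟩
        have e2 : ¬ rot q0 c0 := by
          rintro (⟨h, _⟩ | ⟨_, h⟩ | ⟨h, _⟩)
          · exact n1 h.symm
          · exact n3 h.symm
          · exact n2 h
        simp only [hι, if_pos e1, if_neg e2]
        ring
      refine ⟨w, hwc, ?_⟩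
      rintro x y ((h | ⟨rfl, rfl⟩) | ⟨rfl, rfl⟩)
      · have := hw' x y h
        rw [hkey, hkey]
        linarith
      · exact hmain
      · rw [hφ, hmain]; ring

theorem pe_st : PeS := by
  intro S R N hR hN hY
  exact pe_aux S R hR _ N le_rfl hN hY

end FT58.AS.H9
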